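import Pool.Agent.Helper89_LT.Spec

/-!
# LT: module LFT (helper89)
-/

set_option autoImplicit false

namespace Pool.Agent.LT.H89

open Matrix Pool.Agent.LT

theorem lft : LftStmt := by
  intro ι _ _ A q δ K hA hδ hq hK hB
  obtain ⟨U, l, hU', hU, hAU, hr, hl⟩ := spectral A hA
  have hql : ∀ i, q.eval (l i) = max (l i) δ := fun i => hq _ (by
    rw [hr]; exact Multiset.mem_map_of_mem _ (Finset.mem_univ_val i))
  have hqA : Polynomial.aeval A q = U * diagonal (fun i => max (l i) δ) * Uᵀ := by
    conv_lhs => rw [hAU]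
    rw [aeval_diag U l hU hU' q]
    simp only [hql]
  have hm : ∀ i, 0 < max (l i) δ := fun i => lt_max_of_lt_right hδ
  have hlK : ∀ i, l i ≤ K := fun i => eig_le U l hU K hK (by rw [← hAU]; exact hB) i
  refine ⟨?_, ?_, ?_, ?_, ?_, ?_⟩
  · rw [hqA]
    simp [transpose_mul, Matrix.mul_assoc]
  · rw [hqA, det_mul, det_mul, det_diagonal, lcut_eq A l hr, Real.exp_sum]
    have h1 : U.det * (Uᵀ).det = 1 := by rw [← det_mul, hU', det_one]
    rw [mul_right_comm, h1, one_mul]
    exact Finset.prod_congr rfl fun i _ => (Real.exp_log (hm i)).symm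
  · classical
    rw [zc_eq A l hr δ]
    have h1 : A - Polynomial.aeval A q =
        U * diagonal (fun i => l i - max (l i) δ) * Uᵀ := by
      rw [hqA]
      conv_lhs => rw [hAU]
      rw [← sub_mul, ← mul_sub, diagonal_sub]
    rw [h1]
    refine (rank_mul_le_left _ _).trans ((rank_mul_le_right _ _).trans ?_)
    refine rank_col _ _ fun i j hj => ?_
    by_cases hij : i = j
    · subst hij
      rw [diagonal_apply_eq, max_eq_left (not_lt.mp hj), sub_self]
    · exact diagonal_apply_ne _ hij
  · rw [hqA]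
    exact bd_diag U _ hU hU' _ fun i => ⟨(hm i).le, max_le_max (hlK i) le_rfl⟩
  · have hinv : (Polynomial.aeval A q)⁻¹ = U * diagonal (fun i => (max (l i) δ)⁻¹) * Uᵀ := by
      rw [hqA]
      refine inv_eq_right_inv ?_
      calc U * diagonal (fun i => max (l i) δ) * Uᵀ * (U * diagonal (fun i => (max (l i) δ)⁻¹) * Uᵀ)
          = U * diagonal (fun i => max (l i) δ) * (Uᵀ * U) *
            (diagonal (fun i => (max (l i) δ)⁻¹) * Uᵀ) := by simp only [Matrix.mul_assoc]
        _ = U * (diagonal (fun i => max (l i) δ) * diagonal (fun i => (max (l i) δ)⁻¹)) * Uᵀ := by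
            rw [hU, Matrix.mul_one]; simp only [Matrix.mul_assoc]
        _ = 1 := by
            rw [diagonal_mul_diagonal]
            have : (fun i => max (l i) δ * (max (l i) δ)⁻¹) = fun _ => (1 : ℝ) := by
              funext i
              exact mul_inv_cancel₀ (hm i).ne'
            rw [this, diagonal_one, Matrix.mul_one, hU']
    rw [hinv]
    refine bd_diag U _ hU hU' _ fun i => ⟨(inv_pos.mpr (hm i)).le, ?_⟩
    rw [one_div]
    exact inv_anti₀ hδ (le_max_right _ _)
  · intro x
    rw [hqA]
    exact low_diag U _ hU' δ (fun i => le_max_right _ _) x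

end Pool.Agent.LT.H89
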