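import Pool.Agent.Helper89_LT.Spec

/-!
# LT: module POL (helper89)
-/

set_option autoImplicit false

namespace Pool.Agent.LT.H89

open Matrix Pool.Agent.LT

/-- Completion of some orthonormal columns. -/
theorem complete {ι κ : Type} [Fintype ι] [DecidableEq ι] [Fintype κ] [DecidableEq κ]
    (hc : Fintype.card ι = Fintype.card κ) (P : κ → Prop) (w : κ → ι → ℝ)
    (hw : ∀ i j, P i → P j → w i ⬝ᵥ w j = if i = j then 1 else 0) :
    ∃ W : Matrix ι κ ℝ, Wᵀ * W = 1 ∧ ∀ j, P j → ∀ i, W i j = w j i := by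
  have hfr : Module.finrank ℝ (EuclideanSpace ℝ ι) = Fintype.card κ := by
    rw [finrank_euclideanSpace, hc]
  let v : κ → EuclideanSpace ℝ ι := fun j => WithLp.toLp 2 (w j)
  have hv : Orthonormal ℝ (Set.domRestrict {j | P j} v) := by
    rw [orthonormal_iff_ite]
    intro i j
    have := hw i.1 j.1 i.2 j.2
    change inner ℝ (WithLp.toLp 2 (w i.1)) (WithLp.toLp 2 (w j.1)) = _
    rw [EuclideanSpace.inner_toLp_toLp, star_trivial, dotProduct_comm, this]
    simp [Subtype.ext_iff]
  obtain ⟨b, hb⟩ := hv.exists_orthonormalBasis_extension_of_card_eq hfr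
  refine ⟨Matrix.of fun i j => (b j).ofLp i, ?_, ?_⟩
  · ext i j
    rw [mul_apply, one_apply]
    have := (orthonormal_iff_ite.mp b.orthonormal) i j
    rw [← this]
    simp only [transpose_apply, of_apply, PiLp.inner_apply, RCLike.inner_apply, conj_trivial]
    exact Finset.sum_congr rfl fun k _ => mul_comm _ _
  · intro j hj i
    change (b j).ofLp i = w j i
    rw [hb j hj]

theorem pol : PolStmt := by
  intro ι κ _ _ _ _ Y q δ hc hδ hq
  have hpsd : (Yᵀ * Y).PosSemidef := by
    have := posSemidef_conjTranspose_mul_self Y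
    rwa [conjTranspose_eq_transpose_of_trivial] at this
  obtain ⟨U, l, hU', hU, hAU, hr, hl⟩ := spectral (Yᵀ * Y) hpsd
  have hql : ∀ i, q.eval (l i) = max (l i) δ := fun i => hq _ (by
    rw [hr]; exact Multiset.mem_map_of_mem _ (Finset.mem_univ_val i))
  have hqA : Polynomial.aeval (Yᵀ * Y) q = U * diagonal (fun i => max (l i) δ) * Uᵀ := by
    conv_lhs => rw [hAU]
    rw [aeval_diag U l hU hU' q]
    simp only [hql]
  have hm : ∀ i, 0 < max (l i) δ := fun i => lt_max_of_lt_right hδ
  -- the Gram matrix of `Y U`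
  have hG : (Y * U)ᵀ * (Y * U) = diagonal l := by
    rw [transpose_mul]
    calc Uᵀ * Yᵀ * (Y * U) = Uᵀ * (Yᵀ * Y) * U := by simp only [Matrix.mul_assoc]
      _ = (Uᵀ * U) * diagonal l * (Uᵀ * U) := by
        rw [hAU]; simp only [Matrix.mul_assoc]
      _ = diagonal l := by rw [hU, Matrix.one_mul, Matrix.mul_one]
  have hG' : ∀ i j, ∑ k, (Y * U) k i * (Y * U) k j = if i = j then l i else 0 := by
    intro i j
    have := congrFun (congrFun hG i) j
    rw [mul_apply, diagonal_apply] at this
    simpa only [transpose_apply] using this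
  obtain ⟨W, hW, hWj⟩ := complete hc (fun j => δ ≤ l j)
    (fun j i => (Y * U) i j / Real.sqrt (l j)) (by
      intro i j hi hj
      have hi0 : 0 < l i := lt_of_lt_of_le hδ hi
      have hj0 : 0 < l j := lt_of_lt_of_le hδ hj
      have : (fun k => (Y * U) k i / Real.sqrt (l i)) ⬝ᵥ (fun k => (Y * U) k j / Real.sqrt (l j))
          = (∑ k, (Y * U) k i * (Y * U) k j) / (Real.sqrt (l i) * Real.sqrt (l j)) := by
        simp only [dotProduct]
        rw [Finset.sum_div]
        refine Finset.sum_congr rfl fun k _ => ?_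
        rw [div_mul_div_comm]
      rw [this, hG']
      by_cases hij : i = j
      · subst hij
        rw [if_pos rfl, if_pos rfl, Real.mul_self_sqrt hi0.le, div_self hi0.ne']
      · rw [if_neg hij, if_neg hij, zero_div])
  refine ⟨W * diagonal (fun j => Real.sqrt (max (l j) δ)) * Uᵀ, ?_, ?_⟩
  · rw [hqA, transpose_mul, transpose_mul, transpose_transpose, diagonal_transpose]
    calc U * (diagonal (fun j => Real.sqrt (max (l j) δ)) * Wᵀ) *
          (W * diagonal (fun j => Real.sqrt (max (l j) δ)) * Uᵀ)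
        = U * diagonal (fun j => Real.sqrt (max (l j) δ)) * (Wᵀ * W) *
          (diagonal (fun j => Real.sqrt (max (l j) δ)) * Uᵀ) := by simp only [Matrix.mul_assoc]
      _ = U * (diagonal (fun j => Real.sqrt (max (l j) δ)) *
          diagonal (fun j => Real.sqrt (max (l j) δ))) * Uᵀ := by
          rw [hW, Matrix.mul_one]; simp only [Matrix.mul_assoc]
      _ = _ := by
          rw [diagonal_mul_diagonal]
          simp only [Real.mul_self_sqrt (hm _).le]
  · classical
    rw [zc_eq (Yᵀ * Y) l hr δ]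
    have h1 : Y - W * diagonal (fun j => Real.sqrt (max (l j) δ)) * Uᵀ =
        (Y * U - W * diagonal (fun j => Real.sqrt (max (l j) δ))) * Uᵀ := by
      rw [Matrix.sub_mul, Matrix.mul_assoc Y, hU', Matrix.mul_one]
    rw [h1]
    refine (rank_mul_le_left _ _).trans ?_
    refine rank_col _ _ fun i j hj => ?_
    have hj' : δ ≤ l j := not_lt.mp hj
    have hj0 : 0 < l j := lt_of_lt_of_le hδ hj'
    rw [Matrix.sub_apply, mul_diagonal, hWj j hj' i, max_eq_left hj',
      div_mul_cancel₀ _ (Real.sqrt_pos.mpr hj0).ne', sub_self]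

end Pool.Agent.LT.H89
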