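import Pool.Agent.Helper89_LT.Spec
import Pool.Agent.Helper61_LT.Tools

/-!
# LT: block diagonal matrices (helper89), for module HOD
-/

set_option autoImplicit false

namespace Pool.Agent.LT.H89

open Matrix Pool.Agent.LT

variable {C : Type} [Fintype C] [DecidableEq C]

/-- Block diagonal matrices (degree zero). -/
def Dz (dc : C → ℕ) (A : Matrix C C ℝ) : Prop := ∀ a b, A a b ≠ 0 → dc a = dc b

omit [Fintype C] in
theorem Dz.one (dc : C → ℕ) : Dz dc (1 : Matrix C C ℝ) := by
  intro a b h
  by_cases hab : a = b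
  · rw [hab]
  · exact absurd (Matrix.one_apply_ne hab) h

omit [Fintype C] [DecidableEq C] in
theorem Dz.add {dc : C → ℕ} {A B : Matrix C C ℝ} (hA : Dz dc A) (hB : Dz dc B) :
    Dz dc (A + B) := by
  intro a b h
  by_contra hab
  apply h
  have h1 : A a b = 0 := by
    by_contra h1
    exact hab (hA a b h1)
  have h2 : B a b = 0 := by
    by_contra h2
    exact hab (hB a b h2)
  rw [Matrix.add_apply, h1, h2, add_zero]

omit [Fintype C] [DecidableEq C] in
theorem Dz.smul {dc : C → ℕ} {A : Matrix C C ℝ} (hA : Dz dc A) (r : ℝ) : Dz dc (r • A) := by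
  intro a b h
  apply hA
  intro h1
  apply h
  rw [Matrix.smul_apply, h1, smul_zero]

omit [DecidableEq C] in
theorem Dz.mul {dc : C → ℕ} {A B : Matrix C C ℝ} (hA : Dz dc A) (hB : Dz dc B) :
    Dz dc (A * B) := by
  intro a b h
  rw [Matrix.mul_apply] at h
  obtain ⟨c, -, hc⟩ := Finset.exists_ne_zero_of_sum_ne_zero h
  exact (hA a c (left_ne_zero_of_mul hc)).trans (hB c b (right_ne_zero_of_mul hc))

theorem Dz.pow {dc : C → ℕ} {A : Matrix C C ℝ} (hA : Dz dc A) (k : ℕ) : Dz dc (A ^ k) := by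
  induction k with
  | zero => rw [pow_zero]; exact Dz.one dc
  | succ k ih => rw [pow_succ]; exact ih.mul hA

theorem Dz.aeval {dc : C → ℕ} {A : Matrix C C ℝ} (hA : Dz dc A) (q : Polynomial ℝ) :
    Dz dc (Polynomial.aeval A q) := by
  induction q using Polynomial.induction_on' with
  | add p q hp hq => rw [map_add]; exact hp.add hq
  | monomial k a =>
    rw [Polynomial.aeval_monomial, Algebra.algebraMap_eq_smul_one, smul_one_mul]
    exact (hA.pow k).smul a

/-! ### Restriction to a subset -/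

omit [DecidableEq C] in
theorem res_mul_left {γ : Type} (P : C → Prop) [DecidablePred P] (A : Matrix C C ℝ)
    {δ : Type} (B : Matrix C δ ℝ) (g : γ → δ) (hA : ∀ a c, P a → A a c ≠ 0 → P c) :
    (A * B).submatrix (Subtype.val : {x // P x} → C) g =
      A.submatrix (Subtype.val : {x // P x} → C) (Subtype.val : {x // P x} → C) *
        B.submatrix (Subtype.val : {x // P x} → C) g := by
  ext i j
  rw [Matrix.submatrix_apply, Matrix.mul_apply, Matrix.mul_apply]
  refine Eq.trans ?_ (Finset.sum_subtype (Finset.univ.filter P) (by simp)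
    fun c => A i.1 c * B c (g j))
  rw [Finset.sum_filter_of_ne]
  intro c _ hc
  exact hA _ _ i.2 (left_ne_zero_of_mul hc)

omit [DecidableEq C] in
theorem res_mul_right {γ : Type} (P : C → Prop) [DecidablePred P] {δ : Type}
    (A : Matrix δ C ℝ) (B : Matrix C C ℝ) (g : γ → δ) (hB : ∀ c b, P b → B c b ≠ 0 → P c) :
    (A * B).submatrix g (Subtype.val : {x // P x} → C) =
      A.submatrix g (Subtype.val : {x // P x} → C) *
        B.submatrix (Subtype.val : {x // P x} → C) (Subtype.val : {x // P x} → C) := by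
  ext i j
  rw [Matrix.submatrix_apply, Matrix.mul_apply, Matrix.mul_apply]
  refine Eq.trans ?_ (Finset.sum_subtype (Finset.univ.filter P) (by simp)
    fun c => A (g i) c * B c j.1)
  rw [Finset.sum_filter_of_ne]
  intro c _ hc
  exact hB _ _ j.2 (right_ne_zero_of_mul hc)

omit [DecidableEq C] in
theorem res_mul_mid {γ ε : Type} (P : C → Prop) [DecidablePred P] {δ δ' : Type}
    (A : Matrix δ' C ℝ) (B : Matrix C δ ℝ) (f : ε → δ') (g : γ → δ)
    (hA : ∀ i c, A (f i) c ≠ 0 → P c) :
    (A * B).submatrix f g =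
      A.submatrix f (Subtype.val : {x // P x} → C) *
        B.submatrix (Subtype.val : {x // P x} → C) g := by
  ext i j
  rw [Matrix.submatrix_apply, Matrix.mul_apply, Matrix.mul_apply]
  refine Eq.trans ?_ (Finset.sum_subtype (Finset.univ.filter P) (by simp)
    fun c => A (f i) c * B c (g j))
  rw [Finset.sum_filter_of_ne]
  intro c _ hc
  exact hA _ _ (left_ne_zero_of_mul hc)

omit [Fintype C] in
theorem res_one (P : C → Prop) :
    (1 : Matrix C C ℝ).submatrix (Subtype.val : {x // P x} → C) (Subtype.val : {x // P x} → C)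
      = 1 := by
  ext i j
  simp [Matrix.one_apply, Subtype.ext_iff]

theorem res_pow (P : C → Prop) [DecidablePred P] (A : Matrix C C ℝ)
    (hA : ∀ a c, P a → A a c ≠ 0 → P c) (k : ℕ) :
    (A ^ k).submatrix (Subtype.val : {x // P x} → C) (Subtype.val : {x // P x} → C) =
      (A.submatrix (Subtype.val : {x // P x} → C) (Subtype.val : {x // P x} → C)) ^ k := by
  induction k with
  | zero => rw [pow_zero, pow_zero, res_one]
  | succ k ih => rw [pow_succ', pow_succ', res_mul_left P A (A ^ k) _ hA, ih]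

theorem res_aeval (P : C → Prop) [DecidablePred P] (A : Matrix C C ℝ)
    (hA : ∀ a c, P a → A a c ≠ 0 → P c) (q : Polynomial ℝ) :
    (Polynomial.aeval A q).submatrix (Subtype.val : {x // P x} → C)
      (Subtype.val : {x // P x} → C) =
      Polynomial.aeval (A.submatrix (Subtype.val : {x // P x} → C)
        (Subtype.val : {x // P x} → C)) q := by
  induction q using Polynomial.induction_on' with
  | add p q hp hq =>
    rw [map_add, map_add, ← hp, ← hq]
    rfl
  | monomial k a =>
    rw [Polynomial.aeval_monomial, Polynomial.aeval_monomial, Algebra.algebraMap_eq_smul_one,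
      Algebra.algebraMap_eq_smul_one, smul_one_mul, smul_one_mul, ← res_pow P A hA k]
    rfl

/-- Determinant of a block diagonal matrix, restricted to some degrees. -/
theorem det_block (dc : C → ℕ) (n : ℕ) (hn : ∀ x, dc x ≤ n) (R : ℕ → Prop) [DecidablePred R]
    (M : Matrix C C ℝ) (hM : Dz dc M) :
    (M.submatrix (Subtype.val : {x // R (dc x)} → C) (Subtype.val : {x // R (dc x)} → C)).det =
      ∏ k ∈ Finset.range (n + 1), if R k then
        (M.submatrix (Subtype.val : {x // dc x = k} → C)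
          (Subtype.val : {x // dc x = k} → C)).det else 1 := by
  let b : {x // R (dc x)} → Fin (n + 1) := fun x => ⟨dc x.1, Nat.lt_succ_of_le (hn x.1)⟩
  have hb : BlockTriangular (M.submatrix (Subtype.val : {x // R (dc x)} → C)
      (Subtype.val : {x // R (dc x)} → C)) b := by
    intro i j hij
    by_contra h
    have h1 := hM _ _ h
    have h2 : b i = b j := Fin.ext h1
    rw [h2] at hij
    exact lt_irrefl _ hij
  rw [hb.det_fintype, ← Fin.prod_univ_eq_prod_range (fun k => if R k then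
        (M.submatrix (Subtype.val : {x // dc x = k} → C)
          (Subtype.val : {x // dc x = k} → C)).det else 1) (n + 1)]
  refine Finset.prod_congr rfl fun k _ => ?_
  by_cases hk : R k.1
  · rw [if_pos hk]
    let e : {x : {x // R (dc x)} // b x = k} ≃ {x // dc x = k.1} :=
      { toFun := fun x => ⟨x.1.1, congrArg Fin.val x.2⟩
        invFun := fun y => ⟨⟨y.1, by rw [y.2]; exact hk⟩, Fin.ext y.2⟩
        left_inv := fun x => rfl
        right_inv := fun y => rfl }
    exact det_submatrix_equiv_self e (M.submatrix (Subtype.val : {x // dc x = k.1} → C)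
          (Subtype.val : {x // dc x = k.1} → C))
  · rw [if_neg hk]
    have : IsEmpty {x : {x // R (dc x)} // b x = k} := by
      refine ⟨fun x => hk ?_⟩
      have h1 : dc x.1.1 = k.1 := congrArg Fin.val x.2
      rw [← h1]
      exact x.1.2
    exact det_isEmpty

/-! ### Powers depending on the degree -/

/-- `A ^ h p` in degree `p`. -/
def pw (dc : C → ℕ) (A : Matrix C C ℝ) (h : ℕ → ℕ) : Matrix C C ℝ := fun a b => (A ^ h (dc b)) a b

theorem pw_dz {dc : C → ℕ} {A : Matrix C C ℝ} (hA : Dz dc A) (h : ℕ → ℕ) :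
    Dz dc (pw dc A h) := fun a b hab => hA.pow (h (dc b)) a b hab

/-- Multiplication from the left. -/
theorem mul_pw {δ : Type} (dc : C → ℕ) (A : Matrix C C ℝ) (h : ℕ → ℕ) (D : Matrix δ C ℝ) (a : δ)
    (b : C) : (D * pw dc A h) a b = (D * A ^ h (dc b)) a b := rfl

/-- Multiplication from the right with a matrix of degree `j`. -/
theorem pw_mul (dc : C → ℕ) (A : Matrix C C ℝ) (h : ℕ → ℕ) (E : Matrix C C ℝ) (a b : C) (m : ℕ)
    (hE : ∀ c, E c b ≠ 0 → h (dc c) = m) : (pw dc A h * E) a b = (A ^ m * E) a b := by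
  rw [Matrix.mul_apply, Matrix.mul_apply]
  refine Finset.sum_congr rfl fun c _ => ?_
  by_cases hc : E c b = 0
  · rw [hc, mul_zero, mul_zero]
  · unfold pw
    rw [hE c hc]

theorem pw_mul_pw {dc : C → ℕ} {A B : Matrix C C ℝ} (hB : Dz dc B)
    (hAB : A * B = 1) (hBA : B * A = 1) (h : ℕ → ℕ) : pw dc A h * pw dc B h = 1 := by
  ext a b
  rw [pw_mul dc A h (pw dc B h) a b (h (dc b)) fun c hc => by rw [pw_dz hB h c b hc]]
  rw [mul_pw]
  have : Commute A B := by unfold Commute SemiconjBy; rw [hAB, hBA]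
  rw [← this.mul_pow, hAB, one_pow]

theorem pw_comm {dc : C → ℕ} {A B : Matrix C C ℝ} (hB : Dz dc B) (hAB : A * B = B * A)
    (h : ℕ → ℕ) : pw dc A h * B = B * pw dc A h := by
  ext a b
  rw [pw_mul dc A h B a b (h (dc b)) fun c hc => by rw [hB c b hc], mul_pw]
  have : Commute A B := hAB
  rw [(this.pow_left (h (dc b))).eq]

theorem pw_block (dc : C → ℕ) (A : Matrix C C ℝ) (hA : Dz dc A) (h : ℕ → ℕ) (k : ℕ) :
    (pw dc A h).submatrix (Subtype.val : {x // dc x = k} → C) (Subtype.val : {x // dc x = k} → C)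
      = (A.submatrix (Subtype.val : {x // dc x = k} → C)
        (Subtype.val : {x // dc x = k} → C)) ^ h k := by
  rw [← res_pow (fun x => dc x = k) A (fun a c ha hc => (hA a c hc).symm.trans ha) (h k)]
  ext i j
  rw [Matrix.submatrix_apply, Matrix.submatrix_apply]
  unfold pw
  rw [j.2]

/-- Norm of a finite sum. -/
theorem bd_sum {α β ι : Type} [Fintype α] [Fintype β] (s : Finset ι) (A : ι → Matrix α β ℝ)
    (K : ℝ) (hK : 0 ≤ K) (h : ∀ i ∈ s, Bd (A i) K) : Bd (∑ i ∈ s, A i) (s.card * K) := by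
  classical
  induction s using Finset.induction_on with
  | empty => simpa using bd_zero 0
  | insert i s hi ih =>
    rw [Finset.sum_insert hi, Finset.card_insert_of_notMem hi]
    have h1 := (h i (Finset.mem_insert_self i s)).add
      (ih fun j hj => h j (Finset.mem_insert_of_mem hj)) hK (by positivity)
    have h2 : K + s.card * K = ((s.card + 1 : ℕ) : ℝ) * K := by push_cast; ring
    rwa [h2] at h1

theorem bd_ind (dc : C → ℕ) (p : ℕ) :
    Bd (diagonal fun b => if dc b = p then (1 : ℝ) else 0) 1 := by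
  intro x
  simp only [dotProduct, mulVec_diagonal]
  rw [Finset.mul_sum]
  refine Finset.sum_le_sum fun i _ => ?_
  split_ifs
  · simp
  · simp only [zero_mul, mul_zero, one_pow, one_mul]
    exact mul_self_nonneg _

theorem bd_pw (dc : C → ℕ) (n : ℕ) (hn : ∀ x, dc x ≤ n) (A : Matrix C C ℝ) (K : ℝ) (hK : 1 ≤ K)
    (hA : Bd A K) (h : ℕ → ℕ) (hh : ∀ p ≤ n, h p ≤ n) : Bd (pw dc A h) ((n + 1 : ℕ) * K ^ n) := by
  have h1 : pw dc A h = ∑ p ∈ Finset.range (n + 1), A ^ h p *
      diagonal (fun b => if dc b = p then (1 : ℝ) else 0) := by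
    ext a b
    rw [Matrix.sum_apply]
    simp only [mul_diagonal, mul_ite, mul_one, mul_zero]
    rw [Finset.sum_ite_eq, if_pos (Finset.mem_range.mpr (Nat.lt_succ_of_le (hn b)))]
    rfl
  rw [h1]
  have h2 := bd_sum (Finset.range (n + 1)) (fun p => A ^ h p *
      diagonal (fun b => if dc b = p then (1 : ℝ) else 0)) (K ^ n) (by positivity) (by
    intro p hp
    have hp' : p ≤ n := Nat.lt_succ_iff.mp (Finset.mem_range.mp hp)
    have h3 := (hA.pow (h p)).mul (bd_ind dc p)
    rw [mul_one] at h3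
    exact h3.mono (by positivity) (pow_le_pow_right₀ hK (hh p hp')))
  rwa [Finset.card_range] at h2

/-- Norm of a matrix from its Gram matrix. -/
theorem bd_gram {α β : Type} [Fintype α] [Fintype β] (Z : Matrix α β ℝ) (K M : ℝ)
    (h : Bd (Zᵀ * Z) K) (hK : K ^ 2 ≤ M ^ 4) : Bd Z M := by
  intro x
  have h1 : (Z *ᵥ x) ⬝ᵥ (Z *ᵥ x) = x ⬝ᵥ ((Zᵀ * Z) *ᵥ x) := by
    rw [dotProduct_mulVec, vecMul_mulVec, ← dotProduct_mulVec]
  have h2 := h x
  set y := (Zᵀ * Z) *ᵥ x
  rw [h1]
  have h3 : (x ⬝ᵥ y) ^ 2 ≤ (x ⬝ᵥ x) * (y ⬝ᵥ y) := by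
    have := Finset.sum_mul_sq_le_sq_mul_sq Finset.univ x y
    simpa only [dotProduct, sq] using this
  have h4 : 0 ≤ x ⬝ᵥ x := dot_self_nonneg x
  have h5 : (x ⬝ᵥ y) ^ 2 ≤ (M ^ 2 * (x ⬝ᵥ x)) ^ 2 := by
    calc (x ⬝ᵥ y) ^ 2 ≤ (x ⬝ᵥ x) * (K ^ 2 * (x ⬝ᵥ x)) :=
          h3.trans (mul_le_mul_of_nonneg_left h2 h4)
      _ ≤ (x ⬝ᵥ x) * (M ^ 4 * (x ⬝ᵥ x)) :=
          mul_le_mul_of_nonneg_left (mul_le_mul_of_nonneg_right hK h4) h4
      _ = _ := by ring
  exact le_of_abs_le (abs_le_of_sq_le_sq h5 (by positivity))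

/-- Rank of a submatrix. -/
theorem rk_submatrix {α β α' β' : Type} [Fintype α] [Fintype β] [Fintype α'] [Fintype β']
    (A : Matrix α β ℝ) (f : α' → α) (g : β' → β) : (A.submatrix f g).rank ≤ A.rank := by
  classical
  have h0 : A.submatrix f id = (1 : Matrix α α ℝ).submatrix f (Equiv.refl α) * A :=
    (one_submatrix_mul f (Equiv.refl α) A).symm
  have h1 : A.submatrix f g = (A.submatrix f id) * (1 : Matrix β β ℝ).submatrix (Equiv.refl β) g :=
    (mul_submatrix_one (Equiv.refl β) g (A.submatrix f id)).symm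
  rw [h1, h0]
  exact (rank_mul_le_left _ _).trans (rank_mul_le_right _ _)

/-- `zc` is a rank. -/
theorem zc_le (A : Matrix C C ℝ) (hA : A.PosSemidef) (q : Polynomial ℝ) (δ : ℝ)
    (hq : ∀ x ∈ A.charpoly.roots, q.eval x = max x δ) :
    zc A δ ≤ (A - Polynomial.aeval A q).rank := by
  classical
  obtain ⟨U, l, hU', hU, hAU, hr, hl⟩ := spectral A hA
  have hql : ∀ i, q.eval (l i) = max (l i) δ := fun i => hq _ (by
    rw [hr]; exact Multiset.mem_map_of_mem _ (Finset.mem_univ_val i))
  rw [zc_eq A l hr δ]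
  have h1 : A - Polynomial.aeval A q = U * diagonal (fun i => l i - max (l i) δ) * Uᵀ := by
    conv_lhs => rw [hAU]
    rw [aeval_diag U l hU hU' q]
    simp only [hql]
    rw [← sub_mul, ← mul_sub, diagonal_sub]
  have h2 : diagonal (fun i => l i - max (l i) δ) = Uᵀ * (A - Polynomial.aeval A q) * U := by
    rw [h1]
    calc diagonal (fun i => l i - max (l i) δ)
        = (Uᵀ * U) * diagonal (fun i => l i - max (l i) δ) * (Uᵀ * U) := by
          rw [hU, Matrix.one_mul, Matrix.mul_one]
      _ = _ := by simp only [Matrix.mul_assoc]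
  have h3 : (diagonal (fun i => l i - max (l i) δ)).rank ≤ (A - Polynomial.aeval A q).rank := by
    rw [h2]
    exact (rank_mul_le_left _ _).trans (rank_mul_le_right _ _)
  refine le_trans ?_ h3
  rw [rank_diagonal, Fintype.card_subtype]
  refine Finset.card_le_card fun j => ?_
  simp only [Finset.mem_filter, Finset.mem_univ, true_and]
  intro hj h0
  rw [max_eq_right hj.le] at h0
  linarith

end Pool.Agent.LT.H89
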