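import Pool.Agent.Helper89_LT.Blk
import Pool.Agent.Helper89_LT.Lft
import Pool.Agent.Helper89_LT.Pol

/-!
# LT: module HOD (helper89)
-/

set_option autoImplicit false

namespace Pool.Agent.LT.H89

open Matrix Pool.Agent.LT

section

variable {C : Type} [Fintype C] [DecidableEq C]

omit [DecidableEq C] in
theorem lp_psd (d : Matrix C C ℝ) : (Lp d).PosSemidef := by
  unfold Lp
  have h1 := posSemidef_self_mul_conjTranspose d
  have h2 := posSemidef_conjTranspose_mul_self d
  rw [conjTranspose_eq_transpose_of_trivial] at h1 h2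
  exact h1.add h2

omit [DecidableEq C] in
theorem lp_dz (dc : C → ℕ) (d : Matrix C C ℝ) (hd : Hg dc dc d (-1)) : Dz dc (Lp d) := by
  unfold Lp
  refine Dz.add ?_ ?_
  · intro a b h
    rw [Matrix.mul_apply] at h
    obtain ⟨c, -, hc⟩ := Finset.exists_ne_zero_of_sum_ne_zero h
    have h1 := hd a c (left_ne_zero_of_mul hc)
    have h2 := hd b c (right_ne_zero_of_mul hc)
    omega
  · intro a b h
    rw [Matrix.mul_apply] at h
    obtain ⟨c, -, hc⟩ := Finset.exists_ne_zero_of_sum_ne_zero h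
    have h1 := hd c a (left_ne_zero_of_mul hc)
    have h2 := hd c b (right_ne_zero_of_mul hc)
    omega

omit [DecidableEq C] in
theorem lp_comm (d : Matrix C C ℝ) (hdd : d * d = 0) : Lp d * d = d * Lp d := by
  unfold Lp
  rw [Matrix.add_mul, Matrix.mul_add, Matrix.mul_assoc d, Matrix.mul_assoc dᵀ, hdd,
    Matrix.mul_zero, add_zero, ← Matrix.mul_assoc d d, hdd, Matrix.zero_mul, zero_add]

omit [DecidableEq C] in
theorem lp_comm' (d : Matrix C C ℝ) (hdd : d * d = 0) : Lp d * dᵀ = dᵀ * Lp d := by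
  have h := congrArg transpose (lp_comm d hdd)
  rw [transpose_mul, transpose_mul] at h
  have hT : (Lp d)ᵀ = Lp d := by
    unfold Lp
    rw [transpose_add, transpose_mul, transpose_mul, transpose_transpose]
  rw [hT] at h
  exact h.symm

theorem aeval_comm {A D : Matrix C C ℝ} (h : A * D = D * A) (q : Polynomial ℝ) :
    Polynomial.aeval A q * D = D * Polynomial.aeval A q := by
  induction q using Polynomial.induction_on' with
  | add p q hp hq => rw [map_add, Matrix.add_mul, Matrix.mul_add, hp, hq]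
  | monomial k a =>
    rw [Polynomial.aeval_monomial, Algebra.algebraMap_eq_smul_one, smul_one_mul,
      Matrix.smul_mul, Matrix.mul_smul]
    have h1 : Commute A D := h
    rw [(h1.pow_left k).eq]

theorem aeval_inv (A : Matrix C C ℝ) (hA : A.PosSemidef) (q r : Polynomial ℝ)
    (h : ∀ x ∈ A.charpoly.roots, q.eval x * r.eval x = 1) :
    Polynomial.aeval A q * Polynomial.aeval A r = 1 := by
  obtain ⟨U, l, hU', hU, hAU, hr, hl⟩ := spectral A hA
  rw [← map_mul, hAU, aeval_diag U l hU hU']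
  have h1 : (fun i => (q * r).eval (l i)) = fun _ => (1 : ℝ) := by
    funext i
    rw [Polynomial.eval_mul]
    exact h _ (by rw [hr]; exact Multiset.mem_map_of_mem _ (Finset.mem_univ_val i))
  rw [h1, diagonal_one, Matrix.mul_one, hU']

omit [DecidableEq C] in
theorem hg_mul_dz {dc : C → ℕ} {D H : Matrix C C ℝ} {j : ℤ} (hD : Hg dc dc D j)
    (hH : Dz dc H) : Hg dc dc (D * H) j := by
  intro a b h
  rw [Matrix.mul_apply] at h
  obtain ⟨c, -, hc⟩ := Finset.exists_ne_zero_of_sum_ne_zero h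
  have h1 := hD a c (left_ne_zero_of_mul hc)
  have h2 := hH c b (right_ne_zero_of_mul hc)
  omega

omit [DecidableEq C] in
theorem dz_mul_hg {dc : C → ℕ} {D H : Matrix C C ℝ} {j : ℤ} (hH : Dz dc H)
    (hD : Hg dc dc D j) : Hg dc dc (H * D) j := by
  intro a b h
  rw [Matrix.mul_apply] at h
  obtain ⟨c, -, hc⟩ := Finset.exists_ne_zero_of_sum_ne_zero h
  have h1 := hH a c (left_ne_zero_of_mul hc)
  have h2 := hD c b (right_ne_zero_of_mul hc)
  omega

omit [Fintype C] [DecidableEq C] in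
theorem hg_transpose {dc : C → ℕ} {d : Matrix C C ℝ} (hd : Hg dc dc d (-1)) :
    Hg dc dc dᵀ 1 := by
  intro a b h
  have := hd b a h
  omega

/-- The key identity: `B ^ m' D A ^ m`, where `m'` depends on the degree. -/
theorem key (dc : C → ℕ) (A B D : Matrix C C ℝ) (j : ℤ) (hA : Dz dc A) (hD : Hg dc dc D j)
    (hBD : B * D = D * B) (hBA : B * A = 1) (hAB : A * B = 1) (h : ℕ → ℕ) (a b : C) (e : ℕ)
    (he : ∀ p : ℕ, (p : ℤ) = dc b + j → h p = h (dc b) + e) :
    (pw dc B h * (D * pw dc A h)) a b = (B ^ e * D) a b := by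
  rw [pw_mul dc B h (D * pw dc A h) a b (h (dc b) + e) fun c hc => he _
    (hg_mul_dz hD (pw_dz hA h) c b hc)]
  rw [← Matrix.mul_assoc, mul_pw]
  have hc1 : Commute B D := hBD
  have hc2 : Commute B A := by unfold Commute SemiconjBy; rw [hBA, hAB]
  have : B ^ (h (dc b) + e) * D * A ^ h (dc b) = B ^ e * D := by
    rw [add_comm, pow_add, Matrix.mul_assoc (B ^ e), (hc1.pow_left _).eq,
      Matrix.mul_assoc (B ^ e), Matrix.mul_assoc D, ← hc2.mul_pow, hBA, one_pow, Matrix.mul_one]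
  rw [this]

end

theorem hod : HodStmt := by
  intro n
  refine ⟨8 * n + 5, ?_⟩
  intro C _ _ dc d K δ hn hd hdd hK hbd hδ hδ1 hcard
  -- notation
  obtain ⟨L, hL⟩ : ∃ L, L = Lp d := ⟨_, rfl⟩
  obtain ⟨X, hX⟩ : ∃ X, X = d + dᵀ := ⟨_, rfl⟩
  obtain ⟨h, hh⟩ : ∃ h : ℕ → ℕ, h = fun p => p / 2 := ⟨_, rfl⟩
  have hLpsd : L.PosSemidef := hL ▸ lp_psd d
  have hLdz : Dz dc L := hL ▸ lp_dz dc d hd
  have hLd : L * d = d * L := hL ▸ lp_comm d hdd
  have hLdt : L * dᵀ = dᵀ * L := hL ▸ lp_comm' d hdd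
  have hdt := hg_transpose hd
  have hddt : dᵀ * dᵀ = 0 := by rw [← transpose_mul, hdd, transpose_zero]
  have hXt : Xᵀ = X := by rw [hX, transpose_add, transpose_transpose, add_comm]
  have hXX : X * X = L := by
    rw [hX, hL, Matrix.add_mul, Matrix.mul_add, Matrix.mul_add, hdd, hddt, zero_add, add_zero]
    rfl
  have hXo : ∀ a c, dc a % 2 = 1 → X a c ≠ 0 → dc c % 2 = 0 := by
    intro a c ha hac
    rw [hX, Matrix.add_apply] at hac
    rcases ne_or_eq (d a c) 0 with h1 | h1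
    · have := hd a c h1; omega
    · rw [h1, zero_add] at hac
      have := hdt a c hac; omega
  -- the blocks
  have hYY : (eo dc X)ᵀ * eo dc X =
      L.submatrix (Subtype.val : Od dc → C) (Subtype.val : Od dc → C) := by
    rw [← hXX, res_mul_mid (fun x => dc x % 2 = 0) X X (Subtype.val : Od dc → C)
      (Subtype.val : Od dc → C) fun i c hc => hXo i.1 c i.2 hc]
    unfold eo
    rw [transpose_submatrix, hXt]
  -- polynomials
  obtain ⟨s, hs⟩ : ∃ s : Finset ℝ, s = L.charpoly.roots.toFinset ∪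
      ((eo dc X)ᵀ * eo dc X).charpoly.roots.toFinset ∪
      (Finset.range (n + 1)).biUnion fun k => (Lpp dc d k).charpoly.roots.toFinset := ⟨_, rfl⟩
  obtain ⟨q, hq⟩ : ∃ q : Polynomial ℝ, ∀ x ∈ s, q.eval x = max x δ :=
    ⟨Lagrange.interpolate s id fun x => max x δ, fun x hx =>
      Lagrange.eval_interpolate_at_node (v := id) _ (Function.injective_id.injOn) hx⟩
  obtain ⟨r, hr⟩ : ∃ r : Polynomial ℝ, ∀ x ∈ s, r.eval x = (max x δ)⁻¹ :=
    ⟨Lagrange.interpolate s id fun x => (max x δ)⁻¹, fun x hx =>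
      Lagrange.eval_interpolate_at_node (v := id) _ (Function.injective_id.injOn) hx⟩
  have hm : ∀ x : ℝ, 0 < max x δ := fun x => lt_max_of_lt_right hδ
  have hs1 : ∀ x ∈ L.charpoly.roots, x ∈ s := fun x hx => by
    rw [hs]; simp only [Finset.mem_union]
    exact Or.inl (Or.inl (Multiset.mem_toFinset.mpr hx))
  have hs2 : ∀ x ∈ ((eo dc X)ᵀ * eo dc X).charpoly.roots, x ∈ s := fun x hx => by
    rw [hs]; simp only [Finset.mem_union]
    exact Or.inl (Or.inr (Multiset.mem_toFinset.mpr hx))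
  have hs3 : ∀ k ∈ Finset.range (n + 1), ∀ x ∈ (Lpp dc d k).charpoly.roots, x ∈ s :=
    fun k hk x hx => by
      rw [hs]; simp only [Finset.mem_union]
      exact Or.inr (Finset.mem_biUnion.mpr ⟨k, hk, Multiset.mem_toFinset.mpr hx⟩)
  obtain ⟨Lq, hLq⟩ : ∃ Lq, Lq = Polynomial.aeval L q := ⟨_, rfl⟩
  obtain ⟨Li, hLi⟩ : ∃ Li, Li = Polynomial.aeval L r := ⟨_, rfl⟩
  have hqi : Lq * Li = 1 := by
    rw [hLq, hLi]
    exact aeval_inv L hLpsd q r fun x hx => by
      rw [hq x (hs1 x hx), hr x (hs1 x hx), mul_inv_cancel₀ (hm x).ne']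
  have hiq : Li * Lq = 1 := by
    rw [hLq, hLi]
    exact aeval_inv L hLpsd r q fun x hx => by
      rw [hq x (hs1 x hx), hr x (hs1 x hx), inv_mul_cancel₀ (hm x).ne']
  have hLqdz : Dz dc Lq := hLq ▸ hLdz.aeval q
  have hLidz : Dz dc Li := hLi ▸ hLdz.aeval r
  have hLid : Li * d = d * Li := hLi ▸ aeval_comm hLd r
  have hLidt : Li * dᵀ = dᵀ * Li := hLi ▸ aeval_comm hLdt r
  have hLiL : Li * L = L * Li := hLi ▸ aeval_comm rfl r
  -- norms
  have hbL : Bd L (K * K + K * K) := by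
    rw [hL]; unfold Lp
    exact (hbd.mul (hbd.transpose (by linarith))).add ((hbd.transpose (by linarith)).mul hbd)
      (by positivity) (by positivity)
  obtain ⟨hl1, hl2, hl3, hl4, hl5, hl6⟩ := lft C L q δ (K * K + K * K) hLpsd hδ
    (fun x hx => hq x (hs1 x hx)) (by positivity) hbL
  rw [← hLq] at hl1 hl2 hl3 hl4 hl5 hl6
  rw [inv_eq_right_inv hqi] at hl5
  obtain ⟨Q, hQ⟩ : ∃ Q, Q = (K + 2) / δ := ⟨_, rfl⟩
  have hQK : K + 2 ≤ Q := by
    rw [hQ, le_div_iff₀ hδ]; nlinarith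
  have hQδ : 1 / δ ≤ Q := by
    rw [hQ]; exact div_le_div_of_nonneg_right (by linarith) hδ.le
  have hQ3 : 3 ≤ Q := by linarith
  have hQ1 : 1 ≤ Q := by linarith
  have hQ0 : 0 ≤ Q := by linarith
  have hQQ : Q ≤ Q ^ 3 := by
    calc Q = Q ^ 1 := (pow_one Q).symm
      _ ≤ Q ^ 3 := pow_le_pow_right₀ hQ1 (by norm_num)
  have hbLq : Bd Lq (Q ^ 3) := by
    refine hl4.mono (by positivity) (max_le ?_ (by linarith))
    have h1 : (K + 2) ^ 3 ≤ Q ^ 3 := pow_le_pow_left₀ (by linarith) hQK 3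
    nlinarith [mul_pos (show (0 : ℝ) < K by linarith) (show (0 : ℝ) < K by linarith)]
  have hbLi : Bd Li (Q ^ 3) := hl5.mono (by positivity) (by linarith)
  obtain ⟨H, hH⟩ : ∃ H, H = pw dc Lq h := ⟨_, rfl⟩
  obtain ⟨Hi, hHi⟩ : ∃ Hi, Hi = pw dc Li h := ⟨_, rfl⟩
  have hHdz : Dz dc H := hH ▸ pw_dz hLqdz h
  have hHidz : Dz dc Hi := hHi ▸ pw_dz hLidz h
  have hHHi : H * Hi = 1 := by rw [hH, hHi]; exact pw_mul_pw hLidz hqi hiq h
  have hHiH : Hi * H = 1 := by rw [hH, hHi]; exact pw_mul_pw hLqdz hiq hqi h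
  have hhn : ∀ p ≤ n, h p ≤ n := fun p hp => by rw [hh]; exact (Nat.div_le_self p 2).trans hp
  have hn1 : ((n + 1 : ℕ) : ℝ) * (Q ^ 3) ^ n ≤ Q ^ (4 * n) := by
    have h1 : ((n + 1 : ℕ) : ℝ) ≤ Q ^ n := by
      calc ((n + 1 : ℕ) : ℝ) ≤ ((2 ^ n : ℕ) : ℝ) := by exact_mod_cast Nat.lt_two_pow_self
        _ = 2 ^ n := by push_cast; rfl
        _ ≤ Q ^ n := pow_le_pow_left₀ (by norm_num) (by linarith) n
    calc ((n + 1 : ℕ) : ℝ) * (Q ^ 3) ^ n ≤ Q ^ n * (Q ^ 3) ^ n :=
          mul_le_mul_of_nonneg_right h1 (by positivity)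
      _ = Q ^ (4 * n) := by rw [← pow_mul, ← pow_add]; congr 1; ring
  have hbH : Bd H (Q ^ (4 * n)) := by
    rw [hH]
    exact (bd_pw dc n hn Lq (Q ^ 3) (one_le_pow₀ hQ1) hbLq h hhn).mono (by positivity) hn1
  have hbHi : Bd Hi (Q ^ (4 * n)) := by
    rw [hHi]
    exact (bd_pw dc n hn Li (Q ^ 3) (one_le_pow₀ hQ1) hbLi h hhn).mono (by positivity) hn1
  -- the polar decomposition
  obtain ⟨Z, hZZ, hZr⟩ := pol (Ev dc) (Od dc) (eo dc X) q δ hcard hδ
    fun x hx => hq x (hs2 x hx)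
  have hPo : ∀ {A : Matrix C C ℝ}, Dz dc A → ∀ a c, dc a % 2 = 1 → A a c ≠ 0 → dc c % 2 = 1 :=
    fun hA a c ha hc => by rw [← hA a c hc]; exact ha
  have hPe : ∀ {A : Matrix C C ℝ}, Dz dc A → ∀ a c, dc a % 2 = 0 → A a c ≠ 0 → dc c % 2 = 0 :=
    fun hA a c ha hc => by rw [← hA a c hc]; exact ha
  have hPo' : ∀ {A : Matrix C C ℝ}, Dz dc A → ∀ c a, dc a % 2 = 1 → A c a ≠ 0 → dc c % 2 = 1 :=
    fun hA c a ha hc => by rw [hA c a hc]; exact ha
  have hPe' : ∀ {A : Matrix C C ℝ}, Dz dc A → ∀ c a, dc a % 2 = 0 → A c a ≠ 0 → dc c % 2 = 0 :=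
    fun hA c a ha hc => by rw [hA c a hc]; exact ha
  obtain ⟨Lqo, hLqo⟩ : ∃ M, M = Lq.submatrix (Subtype.val : Od dc → C) (Subtype.val : Od dc → C) :=
    ⟨_, rfl⟩
  obtain ⟨Lio, hLio⟩ : ∃ M, M = Li.submatrix (Subtype.val : Od dc → C) (Subtype.val : Od dc → C) :=
    ⟨_, rfl⟩
  obtain ⟨Ho, hHo⟩ : ∃ M, M = H.submatrix (Subtype.val : Od dc → C) (Subtype.val : Od dc → C) :=
    ⟨_, rfl⟩
  obtain ⟨Hio, hHio⟩ : ∃ M, M = Hi.submatrix (Subtype.val : Od dc → C) (Subtype.val : Od dc → C) :=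
    ⟨_, rfl⟩
  obtain ⟨He, hHe⟩ : ∃ M, M = H.submatrix (Subtype.val : Ev dc → C) (Subtype.val : Ev dc → C) :=
    ⟨_, rfl⟩
  obtain ⟨Hie, hHie⟩ : ∃ M, M = Hi.submatrix (Subtype.val : Ev dc → C) (Subtype.val : Ev dc → C) :=
    ⟨_, rfl⟩
  have hZZ' : Zᵀ * Z = Lqo := by
    rw [hZZ, hYY, hLqo, hLq, res_aeval (fun x => dc x % 2 = 1) L (hPo hLdz) q]
  have hLiqo : Lio * Lqo = 1 := by
    rw [hLio, hLqo, ← res_mul_left (fun x => dc x % 2 = 1) Li Lq _ (hPo hLidz), hiq, res_one]
  have hHHo : Hio * Ho = 1 := by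
    rw [hHo, hHio, ← res_mul_left (fun x => dc x % 2 = 1) Hi H _ (hPo hHidz), hHiH, res_one]
  have hHHo' : Ho * Hio = 1 := by
    rw [hHo, hHio, ← res_mul_left (fun x => dc x % 2 = 1) H Hi _ (hPo hHdz), hHHi, res_one]
  have hHHe : Hie * He = 1 := by
    rw [hHe, hHie, ← res_mul_left (fun x => dc x % 2 = 0) Hi H _ (hPe hHidz), hHiH, res_one]
  have hHHe' : He * Hie = 1 := by
    rw [hHe, hHie, ← res_mul_left (fun x => dc x % 2 = 0) H Hi _ (hPe hHdz), hHHi, res_one]
  have hcomm : Lio * Hio = Hio * Lio := by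
    rw [hLio, hHio, ← res_mul_left (fun x => dc x % 2 = 1) Li Hi _ (hPo hLidz),
      ← res_mul_left (fun x => dc x % 2 = 1) Hi Li _ (hPo hHidz), hHi, pw_comm hLidz rfl h]
  have hZL : (Lio * Zᵀ) * Z = 1 := by rw [Matrix.mul_assoc, hZZ', hLiqo]
  have hZR : Z * (Lio * Zᵀ) = 1 :=
    (mul_eq_one_comm_of_card_eq (Ev dc) (Od dc) ℝ hcard).mpr hZL
  have hbZ : Bd Z (Q ^ 2) := by
    refine bd_gram Z (Q ^ 3) (Q ^ 2) ?_ ?_
    · rw [hZZ', hLqo]
      exact hbLq.submatrix Subtype.val_injective Subtype.val_injective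
    · calc (Q ^ 3) ^ 2 = Q ^ 6 := by ring
        _ ≤ Q ^ 8 := pow_le_pow_right₀ hQ1 (by norm_num)
        _ = (Q ^ 2) ^ 4 := by ring
  have hrkZ : (Z - eo dc X).rank ≤ zc L δ := by
    rw [rk_comm]
    refine hZr.trans ((zc_le _ ?_ q δ fun x hx => hq x (hs2 x hx)).trans ?_)
    · have := posSemidef_conjTranspose_mul_self (eo dc X)
      rwa [conjTranspose_eq_transpose_of_trivial] at this
    · rw [hYY, ← res_aeval (fun x => dc x % 2 = 1) L (hPo hLdz) q, ← hLq]
      exact (rk_submatrix (L - Lq) _ _).trans hl3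
  -- the key identities
  have hK1 : eo dc (d + Li * dᵀ) = Hie * eo dc X * Ho := by
    have h1 : eo dc (d + Li * dᵀ) = (Hi * (X * H)).submatrix (Subtype.val : Ev dc → C)
        (Subtype.val : Od dc → C) := by
      ext a b
      have hb := b.2
      simp only [eo, Matrix.submatrix_apply]
      rw [hX, Matrix.add_mul, Matrix.mul_add, Matrix.add_apply, Matrix.add_apply, hHi, hH,
        key dc Lq Li d (-1) hLqdz hd hLid hiq hqi h a.1 b.1 0 (fun p hp => by
          rw [hh]; change p / 2 = dc b.1 / 2 + 0; omega),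
        key dc Lq Li dᵀ 1 hLqdz hdt hLidt hiq hqi h a.1 b.1 1 (fun p hp => by
          rw [hh]; change p / 2 = dc b.1 / 2 + 1; omega),
        pow_zero, Matrix.one_mul, pow_one]
    rw [h1, res_mul_left (fun x => dc x % 2 = 0) Hi (X * H) _ (hPe hHidz),
      res_mul_right (fun x => dc x % 2 = 1) X H _ (hPo' hHdz), ← hHie, ← hHo, ← Matrix.mul_assoc]
    rfl
  have hK2 : oe dc (d + Li * dᵀ) = Hio * Lio * (eo dc X)ᵀ * He := by
    have h1 : oe dc (d + Li * dᵀ) = (Li * (Hi * (X * H))).submatrix (Subtype.val : Od dc → C)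
        (Subtype.val : Ev dc → C) := by
      ext a b
      have hb := b.2
      simp only [oe, Matrix.submatrix_apply]
      rw [hX, Matrix.add_mul, Matrix.mul_add, Matrix.mul_add, Matrix.add_apply, Matrix.add_apply]
      have h2 : (Li * (Hi * (dᵀ * H))) a.1 b.1 = (Li * dᵀ) a.1 b.1 := by
        rw [Matrix.mul_apply, Matrix.mul_apply]
        refine Finset.sum_congr rfl fun c _ => ?_
        rw [hHi, hH, key dc Lq Li dᵀ 1 hLqdz hdt hLidt hiq hqi h c b.1 0 (fun p hp => by
          rw [hh]; change p / 2 = dc b.1 / 2 + 0; omega), pow_zero, Matrix.one_mul]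
      have h3 : (Li * (Hi * (d * H))) a.1 b.1 = d a.1 b.1 := by
        rcases Nat.eq_zero_or_pos (dc b.1) with hb0 | hb0
        · have h4 : ∀ c, (d * H) c b.1 = 0 := by
            intro c
            by_contra hc
            have := hg_mul_dz hd hHdz c b.1 hc
            omega
          have h5 : d a.1 b.1 = 0 := by
            by_contra hc
            have := hd a.1 b.1 hc
            omega
          rw [h5, ← Matrix.mul_assoc, Matrix.mul_apply]
          exact Finset.sum_eq_zero fun c _ => by rw [h4 c, mul_zero]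
        · -- shift the exponent by one
          have h6 : (Li * (Hi * (d * H))) a.1 b.1 =
              (Li * (Li ^ (h (dc b.1) - 1) * (d * H))) a.1 b.1 := by
            rw [Matrix.mul_apply, Matrix.mul_apply]
            refine Finset.sum_congr rfl fun c _ => ?_
            rw [hHi, pw_mul dc Li h (d * H) c b.1 (h (dc b.1) - 1) fun e he => by
              have h7 := hg_mul_dz hd hHdz e b.1 he
              rw [hh]; change dc e / 2 = dc b.1 / 2 - 1; omega]
          have h8 : h (dc b.1) = (h (dc b.1) - 1) + 1 := by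
            rw [hh]; change dc b.1 / 2 = (dc b.1 / 2 - 1) + 1; omega
          have hc1 : Commute Li d := hLid
          have hc2 : Commute Li Lq := by unfold Commute SemiconjBy; rw [hiq, hqi]
          rw [h6, ← Matrix.mul_assoc, ← pow_succ', ← h8, ← Matrix.mul_assoc, hH, mul_pw,
            (hc1.pow_left _).eq, Matrix.mul_assoc, ← hc2.mul_pow, hiq, one_pow, Matrix.mul_one]
      rw [h2, h3]
    rw [h1, res_mul_left (fun x => dc x % 2 = 1) Li _ _ (hPo hLidz),
      res_mul_left (fun x => dc x % 2 = 1) Hi _ _ (hPo hHidz),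
      res_mul_right (fun x => dc x % 2 = 0) X H _ (hPe' hHdz), ← hHio, ← hHe, ← hLio,
      ← Matrix.mul_assoc, hcomm, ← Matrix.mul_assoc]
    unfold eo
    rw [transpose_submatrix, hXt]
  refine ⟨Li * dᵀ, Hie * Z * Ho, Hio * Lio * Zᵀ * He, ?_, ?_, ?_, ?_, ?_, ?_, ?_, ?_, ?_, ?_⟩
  · exact dz_mul_hg hLidz hdt
  · calc Hie * Z * Ho * (Hio * Lio * Zᵀ * He)
        = Hie * Z * (Ho * Hio) * (Lio * Zᵀ * He) := by simp only [Matrix.mul_assoc]
      _ = Hie * (Z * (Lio * Zᵀ)) * He := by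
          rw [hHHo', Matrix.mul_one]; simp only [Matrix.mul_assoc]
      _ = 1 := by rw [hZR, Matrix.mul_one, hHHe]
  · calc Hio * Lio * Zᵀ * He * (Hie * Z * Ho)
        = Hio * Lio * Zᵀ * (He * Hie) * (Z * Ho) := by simp only [Matrix.mul_assoc]
      _ = Hio * ((Lio * Zᵀ) * Z) * Ho := by
          rw [hHHe', Matrix.mul_one]; simp only [Matrix.mul_assoc]
      _ = 1 := by rw [hZL, Matrix.mul_one, hHHo]
  · have hb1 : Bd Hie (Q ^ (4 * n)) :=
      hHie ▸ hbHi.submatrix Subtype.val_injective Subtype.val_injective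
    have hb2 : Bd Ho (Q ^ (4 * n)) :=
      hHo ▸ hbH.submatrix Subtype.val_injective Subtype.val_injective
    rw [← hQ]
    refine ((hb1.mul hbZ).mul hb2).mono (by positivity) ?_
    rw [← pow_add, ← pow_add]
    exact pow_le_pow_right₀ hQ1 (by omega)
  · have hb1 : Bd Hio (Q ^ (4 * n)) :=
      hHio ▸ hbHi.submatrix Subtype.val_injective Subtype.val_injective
    have hb2 : Bd He (Q ^ (4 * n)) :=
      hHe ▸ hbH.submatrix Subtype.val_injective Subtype.val_injective
    have hb3 : Bd Lio (Q ^ 3) :=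
      hLio ▸ hbLi.submatrix Subtype.val_injective Subtype.val_injective
    rw [← hQ]
    refine (((hb1.mul hb3).mul (hbZ.transpose (by positivity))).mul hb2).mono (by positivity) ?_
    rw [← pow_add, ← pow_add, ← pow_add]
    exact pow_le_pow_right₀ hQ1 (by omega)
  · rw [← hQ]
    refine (hbLi.mul (hbd.transpose (by linarith))).mono (by positivity) ?_
    calc Q ^ 3 * K ≤ Q ^ 3 * Q := mul_le_mul_of_nonneg_left (by linarith) (by positivity)
      _ = Q ^ 4 := by ring
      _ ≤ _ := pow_le_pow_right₀ hQ1 (by omega)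
  · rw [← hL]
    have h1 : 1 - d * (Li * dᵀ) - Li * dᵀ * d = Li * (Lq - L) := by
      rw [Matrix.mul_sub, hiq, hL]
      unfold Lp
      rw [Matrix.mul_add, ← Matrix.mul_assoc, ← hLid, Matrix.mul_assoc, Matrix.mul_assoc, sub_sub]
    rw [h1]
    exact (rank_mul_le_right _ _).trans (by rw [rk_comm]; exact hl3)
  · rw [hK1, ← hL]
    have h1 : Hie * Z * Ho - Hie * eo dc X * Ho = Hie * (Z - eo dc X) * Ho := by
      rw [Matrix.mul_sub, Matrix.sub_mul]
    rw [h1]
    refine ((rank_mul_le_left _ _).trans ((rank_mul_le_right _ _).trans hrkZ)).trans ?_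
    exact Nat.le_mul_of_pos_left _ (by omega)
  · rw [hK2, ← hL]
    have h1 : Hio * Lio * Zᵀ * He - Hio * Lio * (eo dc X)ᵀ * He =
        Hio * Lio * (Z - eo dc X)ᵀ * He := by
      rw [transpose_sub, Matrix.mul_sub, Matrix.sub_mul]
    rw [h1]
    refine ((rank_mul_le_left _ _).trans ((rank_mul_le_right _ _).trans ?_)).trans
      (Nat.le_mul_of_pos_left _ (by omega : 0 < 8 * n + 5))
    rw [rank_transpose]
    exact hrkZ
  · intro E
    -- determinants of the blocks
    have hblk : ∀ k ∈ Finset.range (n + 1),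
        (Lq.submatrix (Subtype.val : {x // dc x = k} → C)
          (Subtype.val : {x // dc x = k} → C)).det = Real.exp (Lcut (Lpp dc d k) δ) := by
      intro k hk
      have h1 : Lq.submatrix (Subtype.val : {x // dc x = k} → C)
          (Subtype.val : {x // dc x = k} → C) = Polynomial.aeval (Lpp dc d k) q := by
        rw [hLq, res_aeval (fun x => dc x = k) L
          (fun a c ha hc => (hLdz a c hc).symm.trans ha) q, hL]
        rfl
      rw [h1]
      exact (lft {x // dc x = k} (Lpp dc d k) q δ (K * K + K * K)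
        ((lp_psd d).submatrix _) hδ (fun x hx => hq x (hs3 k hk x hx)) (by positivity)
        ((hL ▸ hbL).submatrix Subtype.val_injective Subtype.val_injective)).2.1
    have hdH : ∀ (R : ℕ → Prop) [DecidablePred R],
        (H.submatrix (Subtype.val : {x // R (dc x)} → C)
          (Subtype.val : {x // R (dc x)} → C)).det =
        Real.exp (∑ k ∈ Finset.range (n + 1), if R k then
          ((k / 2 : ℕ) : ℝ) * Lcut (Lpp dc d k) δ else 0) := by
      intro R _
      rw [det_block dc n hn R H hHdz, Real.exp_sum]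
      refine Finset.prod_congr rfl fun k hk => ?_
      split_ifs with hR
      · rw [hH, pw_block dc Lq hLqdz h k, det_pow, hblk k hk, ← Real.exp_nat_mul, hh]
      · rw [Real.exp_zero]
    have hdL : Lqo.det = Real.exp (∑ k ∈ Finset.range (n + 1), if k % 2 = 1 then
          Lcut (Lpp dc d k) δ else 0) := by
      rw [hLqo, det_block dc n hn (fun k => k % 2 = 1) Lq hLqdz, Real.exp_sum]
      refine Finset.prod_congr rfl fun k hk => ?_
      split_ifs with hR
      · rw [hblk k hk]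
      · rw [Real.exp_zero]
    have hdHe := hdH (fun k => k % 2 = 0)
    have hdHo := hdH (fun k => k % 2 = 1)
    rw [← hHe] at hdHe
    rw [← hHo] at hdHo
    -- the determinant of `Z`
    obtain ⟨ZE, hZE⟩ : ∃ M, M = Z.submatrix id E := ⟨_, rfl⟩
    have hdZ : ZE.det ^ 2 = Lqo.det := by
      have h1 : ZEᵀ * ZE = Lqo.submatrix E E := by
        rw [hZE, transpose_submatrix, ← hZZ']
        exact (submatrix_mul Zᵀ Z E id E Function.bijective_id).symm
      have h2 := congrArg det h1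
      rw [det_mul, det_transpose, det_submatrix_equiv_self] at h2
      rw [sq, h2]
    have hS : (Hie * Z * Ho).submatrix id E = Hie * ZE * Ho.submatrix E E := by
      rw [hZE, ← submatrix_mul_equiv (Hie * Z) Ho id E E]
      rw [submatrix_mul Hie Z id id E Function.bijective_id, submatrix_id_id]
    have hdi : Hie.det = (He.det)⁻¹ := by
      have h1 := congrArg det hHHe
      rw [det_mul, det_one] at h1
      exact eq_inv_of_mul_eq_one_left h1
    rw [hS, det_mul, det_mul, det_submatrix_equiv_self, hdi, hdHe, hdHo, abs_mul, abs_mul,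
      abs_inv, Real.abs_exp, Real.abs_exp]
    have hZne : |ZE.det| ≠ 0 := by
      intro h0
      rw [abs_eq_zero] at h0
      rw [h0, hdL] at hdZ
      exact (Real.exp_pos _).ne (by simpa using hdZ)
    have hlZ : 2 * Real.log |ZE.det| = ∑ k ∈ Finset.range (n + 1), if k % 2 = 1 then
          Lcut (Lpp dc d k) δ else 0 := by
      have h1 := congrArg Real.log hdZ
      rw [hdL, Real.log_exp, Real.log_pow] at h1
      rw [Real.log_abs, ← h1]
      norm_num
    rw [Real.log_mul (mul_ne_zero (inv_ne_zero (Real.exp_ne_zero _)) hZne) (Real.exp_ne_zero _),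
      Real.log_mul (inv_ne_zero (Real.exp_ne_zero _)) hZne, Real.log_inv, Real.log_exp,
      Real.log_exp]
    have hlZ' : Real.log |ZE.det| = 1 / 2 * ∑ k ∈ Finset.range (n + 1), if k % 2 = 1 then
          Lcut (Lpp dc d k) δ else 0 := by rw [← hlZ]; ring
    rw [hlZ']
    unfold tau
    rw [Finset.mul_sum, Finset.mul_sum, ← Finset.sum_neg_distrib, ← Finset.sum_add_distrib,
      ← Finset.sum_add_distrib]
    refine Finset.sum_congr rfl fun k _ => ?_
    rcases Nat.even_or_odd' k with ⟨m, hm1 | hm1⟩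
    · have h1 : k % 2 = 0 := by omega
      have h2 : k / 2 = m := by omega
      have h3 : ¬ k % 2 = 1 := by omega
      have h4 : ((-1 : ℝ)) ^ k = 1 := by rw [hm1, pow_mul]; norm_num
      rw [if_pos h1, if_neg h3, if_neg h3, h2, h4, hm1]
      push_cast
      ring
    · have h1 : ¬ k % 2 = 0 := by omega
      have h2 : k / 2 = m := by omega
      have h3 : k % 2 = 1 := by omega
      have h4 : ((-1 : ℝ)) ^ k = -1 := by rw [hm1, pow_succ, pow_mul]; norm_num
      rw [if_neg h1, if_pos h3, if_pos h3, h2, h4, hm1]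
      push_cast
      ring

end Pool.Agent.LT.H89
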