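import Pool.Agent.Helper61_LT.Stmts

/-!
# LT: spectral tools (helper89)
-/

set_option autoImplicit false

namespace Pool.Agent.LT.H89

open Matrix Pool.Agent.LT

variable {ι : Type} [Fintype ι] [DecidableEq ι]

/-- Spectral theorem. -/
theorem spectral (A : Matrix ι ι ℝ) (hA : A.PosSemidef) :
    ∃ (U : Matrix ι ι ℝ) (l : ι → ℝ), U * Uᵀ = 1 ∧ Uᵀ * U = 1 ∧ A = U * diagonal l * Uᵀ ∧
      A.charpoly.roots = Finset.univ.val.map l ∧ ∀ i, 0 ≤ l i := by
  have hH := hA.isHermitian
  refine ⟨(hH.eigenvectorUnitary : Matrix ι ι ℝ), hH.eigenvalues, ?_, ?_, ?_, ?_, ?_⟩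
  · have := (mem_unitaryGroup_iff (A := (hH.eigenvectorUnitary : Matrix ι ι ℝ))).mp
      hH.eigenvectorUnitary.2
    rwa [star_eq_conjTranspose, conjTranspose_eq_transpose_of_trivial] at this
  · have := (mem_unitaryGroup_iff' (A := (hH.eigenvectorUnitary : Matrix ι ι ℝ))).mp
      hH.eigenvectorUnitary.2
    rwa [star_eq_conjTranspose, conjTranspose_eq_transpose_of_trivial] at this
  · have := hH.spectral_theorem
    conv_lhs => rw [this]
    rw [Unitary.conjStarAlgAut_apply]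
    rw [star_eq_conjTranspose, conjTranspose_eq_transpose_of_trivial]
    rfl
  · rw [hH.roots_charpoly_eq_eigenvalues]
    rfl
  · exact hA.eigenvalues_nonneg

omit [DecidableEq ι] in
/-- Norm squared of a vector in the coordinates of an orthogonal matrix. -/
theorem dot_orth {κ : Type} [Fintype κ] [DecidableEq κ] (U : Matrix ι κ ℝ) (hU : Uᵀ * U = 1)
    (x y : κ → ℝ) : (U *ᵥ x) ⬝ᵥ (U *ᵥ y) = x ⬝ᵥ y := by
  rw [dotProduct_mulVec, vecMul_mulVec, ← dotProduct_mulVec, hU, one_mulVec]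

/-- Polynomials of `U diag(l) Uᵀ`. -/
theorem aeval_diag (U : Matrix ι ι ℝ) (l : ι → ℝ) (hU : Uᵀ * U = 1) (hU' : U * Uᵀ = 1)
    (q : Polynomial ℝ) : Polynomial.aeval (U * diagonal l * Uᵀ) q =
      U * diagonal (fun i => q.eval (l i)) * Uᵀ := by
  induction q using Polynomial.induction_on' with
  | add p q hp hq =>
    simp only [map_add, hp, hq, Polynomial.eval_add, ← diagonal_add]
    rw [mul_add, add_mul]
  | monomial n a =>
    rw [Polynomial.aeval_monomial]
    have h1 : (U * diagonal l * Uᵀ) ^ n = U * diagonal (fun i => l i ^ n) * Uᵀ := by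
      induction n with
      | zero => simp [hU']
      | succ n ih =>
        rw [pow_succ, ih]
        calc U * diagonal (fun i => l i ^ n) * Uᵀ * (U * diagonal l * Uᵀ)
            = U * diagonal (fun i => l i ^ n) * (Uᵀ * U) * (diagonal l * Uᵀ) := by
              simp only [Matrix.mul_assoc]
          _ = _ := by
              rw [hU, Matrix.mul_one, ← Matrix.mul_assoc, Matrix.mul_assoc U, diagonal_mul_diagonal]
              simp only [pow_succ]
    rw [h1]
    have h2 : (algebraMap ℝ (Matrix ι ι ℝ)) a = a • (1 : Matrix ι ι ℝ) :=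
      Algebra.algebraMap_eq_smul_one a
    rw [h2, Matrix.smul_mul, Matrix.one_mul]
    simp only [Polynomial.eval_monomial]
    rw [← Matrix.smul_mul, ← Matrix.mul_smul, ← diagonal_smul]
    rfl

/-- The eigenvalues of a bounded matrix. -/
theorem eig_le (U : Matrix ι ι ℝ) (l : ι → ℝ) (hU : Uᵀ * U = 1) (K : ℝ) (hK : 0 ≤ K)
    (h : Bd (U * diagonal l * Uᵀ) K) (i : ι) : l i ≤ K := by
  have h1 := h (U *ᵥ Pi.single i 1)
  rw [mulVec_mulVec, Matrix.mul_assoc, hU, Matrix.mul_one, ← mulVec_mulVec, dot_orth U hU,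
    dot_orth U hU] at h1
  simp only [mulVec_single_one, dotProduct_single, Pi.single_eq_same] at h1
  have h2 : (diagonal l).col i = Pi.single i (l i) := by
    ext j
    by_cases hj : j = i
    · subst hj; simp [Matrix.col]
    · simp [Matrix.col, diagonal_apply_ne _ hj, Pi.single_eq_of_ne hj]
  rw [h2] at h1
  simp only [dotProduct_single, Pi.single_eq_same, mul_one] at h1
  nlinarith [abs_le_of_sq_le_sq' (show l i ^ 2 ≤ K ^ 2 by nlinarith) hK]

/-- Norm of `U diag(d) Uᵀ`. -/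
theorem bd_diag (U : Matrix ι ι ℝ) (d : ι → ℝ) (hU : Uᵀ * U = 1) (hU' : U * Uᵀ = 1) (K : ℝ)
    (hd : ∀ i, 0 ≤ d i ∧ d i ≤ K) : Bd (U * diagonal d * Uᵀ) K := by
  intro x
  have hUt : (Uᵀ)ᵀ * Uᵀ = 1 := by rw [transpose_transpose, hU']
  rw [← mulVec_mulVec, ← mulVec_mulVec, dot_orth U hU, ← dot_orth Uᵀ hUt x x]
  set y := Uᵀ *ᵥ x
  simp only [dotProduct, mulVec_diagonal]
  rw [Finset.mul_sum]
  refine Finset.sum_le_sum fun i _ => ?_
  have := hd i
  nlinarith [mul_le_mul this.2 this.2 this.1 (this.1.trans this.2), mul_self_nonneg (y i)]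

/-- Lower bound for `U diag(d) Uᵀ`. -/
theorem low_diag (U : Matrix ι ι ℝ) (d : ι → ℝ) (hU' : U * Uᵀ = 1) (δ : ℝ)
    (hd : ∀ i, δ ≤ d i) (x : ι → ℝ) :
    δ * (x ⬝ᵥ x) ≤ x ⬝ᵥ ((U * diagonal d * Uᵀ) *ᵥ x) := by
  have hUt : (Uᵀ)ᵀ * Uᵀ = 1 := by rw [transpose_transpose, hU']
  rw [← dot_orth Uᵀ hUt x x, ← mulVec_mulVec, ← mulVec_mulVec, dotProduct_mulVec x U,
    ← mulVec_transpose]
  set y := Uᵀ *ᵥ x
  simp only [dotProduct, mulVec_diagonal]
  rw [Finset.mul_sum]
  refine Finset.sum_le_sum fun i _ => ?_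
  nlinarith [hd i, mul_self_nonneg (y i)]

omit [Fintype ι] [DecidableEq ι] in
/-- Rank of a matrix all of whose columns outside a set vanish. -/
theorem rank_col {κ : Type} [Fintype κ] [DecidableEq κ] (M : Matrix ι κ ℝ) (P : κ → Prop)
    [DecidablePred P] (h : ∀ i j, ¬ P j → M i j = 0) :
    M.rank ≤ (Finset.univ.filter P).card := by
  have h1 : M = M * diagonal (fun j => if P j then (1 : ℝ) else 0) := by
    ext i j
    rw [mul_diagonal]
    by_cases hj : P j
    · simp [hj]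
    · simp [hj, h i j hj]
  rw [h1]
  refine (rank_mul_le_right _ _).trans ?_
  rw [rank_diagonal]
  rw [Fintype.card_subtype]
  refine Finset.card_le_card fun j => ?_
  simp only [Finset.mem_filter, Finset.mem_univ, true_and]
  intro hj
  by_contra hP
  exact hj (if_neg hP)

/-- `zc` and `Lcut` in terms of the eigenvalues. -/
theorem zc_eq (A : Matrix ι ι ℝ) (l : ι → ℝ) (h : A.charpoly.roots = Finset.univ.val.map l)
    (δ : ℝ) [DecidablePred fun i => l i < δ] :
    zc A δ = (Finset.univ.filter fun i => l i < δ).card := by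
  unfold zc
  rw [h, Multiset.filter_map, Multiset.card_map, Finset.card_def, Finset.filter_val]
  congr

theorem lcut_eq (A : Matrix ι ι ℝ) (l : ι → ℝ) (h : A.charpoly.roots = Finset.univ.val.map l)
    (δ : ℝ) : Lcut A δ = ∑ i, Real.log (max (l i) δ) := by
  unfold Lcut
  rw [h, Multiset.map_map]
  rfl

end Pool.Agent.LT.H89
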